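import Pool.Agent.L5helper29.OFS.Hundred
import Pool.Agent.L5helper61.OF.Extr
import Pool.Agent.L5helper67.OF.Irred
import Pool.Agent.L5helper24.OF.Gen
import Pool.Agent.L5helper73.OF.Torus
import Pool.Agent.L5helper41.OF.Bil
import Pool.Agent.L5helper15.OF.AlmG
import Pool.Agent.L5helper15.OF.Uni
import Pool.Agent.L5helper19.OF.PatG
import Pool.Agent.L5helper19.OF.Trick

/-!
# Assembly
-/

set_option autoImplicit false
set_option linter.all false

namespace Pool.Agent.L5helper29.OFS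

open Matrix Polynomial NumberField Finset
open Pool.Agent.L5helper73.TC (Symp Coeff)

theorem final1 {Γ : Type} [Group Γ] {w : ℕ} {ρ : Γ →* Matrix (Fin w) (Fin w) ℂ} {χ : Γ →* ℂˣ}
    {E : Matrix (Fin w) (Fin w) ℂ} {J J' : Type} [Fintype J] [DecidableEq J] [Fintype J']
    [DecidableEq J'] {V : Idx J J' → Matrix (Fin w) (Fin w) ℂ} {φ : Γ} {Q : ℕ} {A : J → Finset ℂ}
    {A' : J' → Finset ℂ} {B : Finset ℂ} (hS : Symp ρ χ E) (hC : Coeff ρ E star V)
    (hI : Irr ρ V) (hQ : 1 < Q)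
    (hχ : (χ φ : ℂ) = Q) (hr : ∀ i, (V i).rank = (spec Q A A' i).card)
    (hE : Eigen V (ρ φ) (spec Q A A')) (h3 : ∀ j, 3 ≤ (A j).card)
    (hd : ∀ i, ∀ x ∈ A' i, (Q : ℂ) / x ∈ A' i) (hB : ∀ z ∈ B, z ≠ 0)
    (h : OnlyObvious Q A A' B) : GeneratedFor ρ χ E V φ Q B :=
  one Pool.Agent.L5helper61.OF.extr Pool.Agent.L5helper67.OF.irred Pool.Agent.L5helper24.OF.gen
    Pool.Agent.L5helper29.OF.torus Pool.Agent.L5helper41.OF.bil hS hC hI hQ hχ hr hE hd h3 hB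
    (relM (fun i x hx => h0_of hE (Sum.inr i) x hx) h)

theorem uni : Pool.Agent.L5helper29.OF.St_UNI :=
  Pool.Agent.L5helper15.OF.uni (Pool.Agent.L5helper15.OF.almg Pool.Agent.L5helper19.OF.PATG)
    Pool.Agent.L5helper15.OF.tup Pool.Agent.L5helper19.OF.TRICK

end Pool.Agent.L5helper29.OFS
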