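import Pool.Agent.L5helper29.OFS.One
import Pool.Agent.L5helper15.OF.Uni

/-!
# Almost all members of a family over a number field
-/

set_option autoImplicit false
set_option linter.all false

namespace Pool.Agent.L5helper29.OFS

open Matrix Polynomial NumberField Finset
open Pool.Agent.L5helper73.TC (Symp Coeff ClassSystem detForm)
open Pool.Agent.L5helper19.TC (IsTateRel RelSystem OnlyTateLines)
open Pool.Agent.L5helper29.AA (share RelM GK)
open Pool.Agent.L5helper29.AAS (proportion weil rts rtsZ)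
open Pool.Agent.L5helper29.OF (St_EXTR St_IRRED St_GEN St_TORUS St_UNI St_BIL)

lemma bigFamily {K : Type} [Field K] [NumberField K] {τ : K →+* ℂ} {Q : ℕ → ℕ} {J J' : Type}
    [Fintype J] [Fintype J'] {N : J → ℕ} {g : J' → ℕ} {S : ℕ → Type} [∀ n, Fintype (S n)]
    {P : ∀ n, S n → J → (𝓞 K)[X]} {h : ∀ n, S n → J' → ℤ[X]} {δ : ℕ → J → 𝓞 K}
    (hF : BigFamily τ Q N g S P h δ) :
    Pool.Agent.L5helper29.OF.BigFamilyV τ Q N g S P h δ where
  one_lt := hF.one_lt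
  coprime := hF.coprime
  three_le := hF.three_le
  pos := hF.pos
  monic := hF.monic
  natDegree := hF.natDegree
  monic' := hF.monic'
  natDegree' := hF.natDegree'
  norm := fun n s j x hx =>
    hF.norm n s j x ((Pool.Agent.L5helper29.AA.mem_rts (hF.monic n s j)).2 hx)
  norm' := fun n s i x hx => by
    refine hF.norm' n s i x (Multiset.mem_toFinset.2 ((mem_roots' (p := (weil (Q n)
      (h n s i)).map (Int.castRingHom ℂ))).2 ⟨?_, ?_⟩))
    · exact ((Pool.Agent.W521.Frob.weil_monic (Q n) (hF.monic' n s i)).map _).ne_zero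
    · rw [IsRoot.def, eval_map]
      exact hx
  dvd := hF.dvd
  equi := hF.equi

/-- **Almost all members.** -/
theorem hundred (hEX : St_EXTR) (hIR : St_IRRED) (hGE : St_GEN) (hTO : St_TORUS) (hBI : St_BIL)
    (hUN : St_UNI)
    {K : Type} [Field K] [NumberField K] {τ : K →+* ℂ} {Q : ℕ → ℕ} {J J' : Type}
    [Fintype J] [DecidableEq J] [Fintype J'] [DecidableEq J'] {N : J → ℕ} {g : J' → ℕ}
    {S : ℕ → Type} [∀ n, Fintype (S n)] {P : ∀ n, S n → J → (𝓞 K)[X]} {h : ∀ n, S n → J' → ℤ[X]}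
    {δ : ℕ → J → 𝓞 K} {Γ : Type} [Group Γ] {χ : Γ →* ℂˣ} {φ : ℕ → Γ} {𝒮 : Type}
    {red : ∀ n, 𝒮 → S n → Prop} {w : ℕ} {ρ : 𝒮 → Γ →* Matrix (Fin w) (Fin w) ℂ}
    {E : 𝒮 → Matrix (Fin w) (Fin w) ℂ} {V : 𝒮 → Idx J J' → Matrix (Fin w) (Fin w) ℂ}
    {F : ℕ → Finset 𝒮}
    (hF : BigFamily τ Q N g S P h δ) (hM : Members χ φ τ Q N g S P h red ρ E V)
    (hsp : Spread S red F) (b₀ : ℕ) (ε : ℝ) (hε : 0 < ε) :
    ∃ n₀ : ℕ, ∀ n ≥ n₀, ∃ H₀ : ℕ, ∀ H ≥ H₀, ∀ B : Finset ℂ, B.card ≤ b₀ → (∀ z ∈ B, z ≠ 0) →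
      (∀ σ : ℂ ≃+* ℂ, (∀ x, σ (τ x) = τ x) → ∀ z ∈ B, σ z ∈ B) →
      ({s | s ∈ F H ∧ ¬ GeneratedFor (ρ s) χ (E s) (V s) (φ n) (Q n) B}.ncard : ℝ) ≤
        ε * (F H).card := by
  classical
  obtain ⟨n₂, h2⟩ := hUN K τ Q J J' N g S P h δ (bigFamily hF) b₀ (ε / 2) (by positivity)
  obtain ⟨n₃, h3⟩ := hsp (ε / 2) (by positivity)
  refine ⟨max n₂ n₃, fun n hn => ?_⟩
  have hn2 : n₂ ≤ n := (le_max_left _ _).trans hn
  have hn3 : n₃ ≤ n := (le_max_right _ _).trans hn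
  obtain ⟨hne, H₀, hH⟩ := h3 n hn3
  refine ⟨H₀, fun H hH0 B hBc hB0 hBσ => ?_⟩
  have hbad := h2 n hn2 B hBc hB0 (fun σ hσ => hBσ σ hσ.1)
  set D : Set (S n) := {s : S n | (Pool.Agent.L5helper29.OF.GalFam τ (Q n)
        (fun j => Pool.Agent.L5helper29.AA.rts τ (P n s j))
        (fun i => Pool.Agent.L5helper29.AA.rtsZ (Pool.Agent.W521.Frob.weil (Q n) (h n s i))) ∧
        (∀ j, (Pool.Agent.L5helper29.AA.rts τ (P n s j)).card = N j) ∧
        (∀ i, (Pool.Agent.L5helper29.AA.rtsZ (Pool.Agent.W521.Frob.weil (Q n) (h n s i))).card =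
          2 * g i) ∧
        RelM (Q n) (fun j => Pool.Agent.L5helper29.AA.rts τ (P n s j))
          (fun i => Pool.Agent.L5helper29.AA.rtsZ (Pool.Agent.W521.Frob.weil (Q n) (h n s i)))
          B)} with hD
  have hcard : (D.ncard : ℝ) / (Nat.card (S n) : ℝ) ≥ 1 - ε / 2 := by
    have hpos : (0 : ℝ) < Nat.card (S n) := by exact_mod_cast Nat.card_pos
    have h4 : (D.ncard : ℝ) + (Dᶜ.ncard : ℝ) = Nat.card (S n) := by
      exact_mod_cast Set.ncard_add_ncard_compl D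
    have h5 : (Dᶜ.ncard : ℝ) ≤ ε / 2 * Nat.card (S n) := hbad
    rw [ge_iff_le, le_div_iff₀ hpos]
    linarith
  have h6 := hH H hH0 D
  have hgen : ∀ s, (∃ t ∈ D, red n s t) →
      GeneratedFor (ρ s) χ (E s) (V s) (φ n) (Q n) B := by
    rintro s ⟨t, ⟨ht1, ht2, ht3, ht4⟩, hst⟩
    have hQC : (Q n : ℂ) ≠ 0 := by
      have := hF.one_lt n
      exact_mod_cast (by omega : Q n ≠ 0)
    refine one hEX hIR hGE hTO hBI (hM.symp s) (hM.coeff s) (hM.irr s) (hF.one_lt n) (hM.frob n) ?_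
      (hM.eigen n s t hst) (fun i x hx => (ht1.blkS i).dual x hx) (fun j => ?_) hB0 ht4
    swap
    · exact (hF.three_le j).trans (ht2 j).symm.le
    rintro (⟨j, b⟩ | i)
    · rw [hM.rank]
      cases b
      · change N j = ((rts τ (P n t j)).image fun x => (Q n : ℂ) / x).card
        rw [Finset.card_image_of_injOn]
        · exact (ht2 j).symm
        · intro x hx y hy hxy
          have hx0 : x ≠ 0 := (ht1.blk j).ne_zero x hx
          have hy0 : y ≠ 0 := (ht1.blk j).ne_zero y hy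
          simp only at hxy
          rw [div_eq_div_iff hx0 hy0] at hxy
          exact (mul_left_cancel₀ hQC hxy).symm
      · exact (ht2 j).symm
    · rw [hM.rank']
      exact (ht3 i).symm
  have h7 : ({s | s ∈ F H ∧ ∃ t ∈ D, red n s t}.ncard : ℝ) +
      ({s | s ∈ F H ∧ ¬ GeneratedFor (ρ s) χ (E s) (V s) (φ n) (Q n) B}.ncard : ℝ) ≤ (F H).card := by
    have hdis : Disjoint {s | s ∈ F H ∧ ∃ t ∈ D, red n s t}
        {s | s ∈ F H ∧ ¬ GeneratedFor (ρ s) χ (E s) (V s) (φ n) (Q n) B} := by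
      rw [Set.disjoint_left]
      rintro s ⟨-, h8⟩ ⟨-, h9⟩
      exact h9 (hgen s h8)
    have hfin1 : {s | s ∈ F H ∧ ∃ t ∈ D, red n s t}.Finite :=
      (F H).finite_toSet.subset fun s hs => hs.1
    have hfin2 : {s | s ∈ F H ∧ ¬ GeneratedFor (ρ s) χ (E s) (V s) (φ n) (Q n) B}.Finite :=
      (F H).finite_toSet.subset fun s hs => hs.1
    have h8 := Set.ncard_union_eq hdis hfin1 hfin2
    have h9 : ({s | s ∈ F H ∧ ∃ t ∈ D, red n s t} ∪
        {s | s ∈ F H ∧ ¬ GeneratedFor (ρ s) χ (E s) (V s) (φ n) (Q n) B}).ncard ≤ ((F H : Set 𝒮)).ncard :=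
      Set.ncard_le_ncard (by
        rintro s (hs | hs)
        · exact hs.1
        · exact hs.1) (F H).finite_toSet
    rw [Set.ncard_coe_finset] at h9
    rw [h8] at h9
    exact_mod_cast h9
  have hF0 : (0 : ℝ) ≤ (F H).card := Nat.cast_nonneg _
  nlinarith

end Pool.Agent.L5helper29.OFS
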