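import Pool.Agent.L5helper29.OFS.Stm
import Pool.Agent.L5helper29.OF.Eig
import Pool.Agent.L5helper29.OF.MainK
import Pool.Agent.L5helper29.OF.DefsB

/-!
# The theorem for one Frobenius element
-/

set_option autoImplicit false
set_option linter.all false

namespace Pool.Agent.L5helper29.OFS

open Matrix Module Finset
open Pool.Agent.L5helper73.TC (Symp Coeff ClassSystem detForm om PP HodgeTate IsTate)
open Pool.Agent.L5helper19.TC (IsTateRel RelSystem OnlyTateLines)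
open Pool.Agent.L5helper29.AA (RelM both)
open Pool.Agent.L5helper29.AAS (InGrp)
open Pool.Agent.L5helper29.OF (St_EXTR St_IRRED St_GEN St_TORUS St_BIL)

theorem relM {Q : ℕ} {J J' : Type} [Fintype J] [DecidableEq J] [Fintype J'] [DecidableEq J']
    {A : J → Finset ℂ} {A' : J' → Finset ℂ} {B : Finset ℂ} (h0' : ∀ i, ∀ x ∈ A' i, x ≠ 0)
    (h : OnlyObvious Q A A' B) : RelM Q A A' B := by
  classical
  intro m N hN k n hm
  let e : J → ℂ → ℤ := fun j x => if hx : x ∈ A j then m (Sum.inl j) ⟨x, hx⟩ else 0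
  let e' : J' → ℂ → ℤ := fun i x => if hx : x ∈ A' i then m (Sum.inr i) ⟨x, hx⟩ else 0
  have h1 : Pool.Agent.L5helper29.AS.mono (both A A') m =
      (∏ j, ∏ x ∈ A j, x ^ e j x) * ∏ i, ∏ x ∈ A' i, x ^ e' i x := by
    unfold Pool.Agent.L5helper29.AS.mono
    rw [Fintype.prod_sum_type]
    congr 1
    · refine Finset.prod_congr rfl fun j _ => ?_
      rw [← Finset.prod_coe_sort (A j) (fun x => x ^ e j x)]
      refine Finset.prod_congr rfl fun x _ => ?_
      have : e j x = m (Sum.inl j) x := dif_pos x.2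
      rw [this]
    · refine Finset.prod_congr rfl fun i _ => ?_
      rw [← Finset.prod_coe_sort (A' i) (fun x => x ^ e' i x)]
      refine Finset.prod_congr rfl fun x _ => ?_
      have : e' i x = m (Sum.inr i) x := dif_pos x.2
      rw [this]
  rw [h1] at hm
  obtain ⟨h2, h3⟩ := h e e' n k N hN hm
  constructor
  · intro j x y
    have h4 := h2 j x x.2 y y.2
    rwa [show e j x = m (Sum.inl j) x from dif_pos x.2,
      show e j y = m (Sum.inl j) y from dif_pos y.2] at h4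
  · intro i x y hxy
    have h4 := h3 i x x.2
    have hx0 := h0' i x x.2
    have h5 : (Q : ℂ) / x = y := by rw [div_eq_iff hx0, ← hxy, mul_comm]
    rw [h5] at h4
    rwa [show e' i x = m (Sum.inr i) x from dif_pos x.2,
      show e' i y = m (Sum.inr i) y from dif_pos y.2] at h4

/-- The relations modulo a set of numbers in the group generated by `Q` and `B`. -/
theorem relM_inGrp {Q : ℕ} (hQ : (Q : ℂ) ≠ 0) {J J' : Type} [Fintype J] [DecidableEq J] [Fintype J']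
    [DecidableEq J'] {A : J → Finset ℂ} {A' : J' → Finset ℂ} {B B' : Finset ℂ}
    (hB : ∀ z ∈ B, z ≠ 0) (h : RelM Q A A' B) (h' : ∀ ν ∈ B', InGrp Q B ν) : RelM Q A A' B' := by
  classical
  intro m N hN k n hm
  choose! Nν kν nν hpos heq using h'
  set M : ℕ := ∏ ν ∈ B', Nν ν with hMdef
  have hM : 0 < M := Finset.prod_pos fun ν hν => hpos ν hν
  have hpw : ∀ ν ∈ B', ν ^ M = (Q : ℂ) ^ (kν ν * ((M / Nν ν : ℕ) : ℤ)) *
      ∏ b ∈ B, b ^ (nν ν b * ((M / Nν ν : ℕ) : ℤ)) := by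
    intro ν hν
    have h1 : M = Nν ν * (M / Nν ν) :=
      (Nat.mul_div_cancel' (Finset.dvd_prod_of_mem _ hν)).symm
    conv_lhs => rw [h1, pow_mul, heq ν hν, mul_pow]
    rw [_root_.zpow_mul, zpow_natCast, ← Finset.prod_pow]
    congr 1
    refine Finset.prod_congr rfl fun b _ => ?_
    rw [_root_.zpow_mul, zpow_natCast]
  refine h m (N * M) (Nat.mul_pos hN hM) (k * M + ∑ ν ∈ B', kν ν * ((M / Nν ν : ℕ) : ℤ) * n ν)
    (fun b => ∑ ν ∈ B', nν ν b * ((M / Nν ν : ℕ) : ℤ) * n ν) ?_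
  have hz : ∀ (s : Finset ℂ) (x : ℂ) (hx : x ≠ 0) (f : ℂ → ℤ),
      x ^ (∑ ν ∈ s, f ν) = ∏ ν ∈ s, x ^ f ν := by
    intro s x hx f
    induction s using Finset.induction_on with
    | empty => simp
    | insert a s ha ih => rw [Finset.sum_insert ha, Finset.prod_insert ha, zpow_add₀ hx, ih]
  rw [pow_mul, hm, mul_pow, zpow_add₀ hQ, _root_.zpow_mul, zpow_natCast, mul_assoc]
  congr 1
  rw [← Finset.prod_pow, hz _ _ hQ]
  rw [Finset.prod_congr rfl (fun b hb => hz B' b (hB b hb) _), Finset.prod_comm,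
    ← Finset.prod_mul_distrib]
  refine Finset.prod_congr rfl fun ν hν => ?_
  have h2 : (ν ^ n ν) ^ M = (ν ^ M) ^ n ν := by
    rw [← zpow_natCast, ← zpow_natCast, ← _root_.zpow_mul, ← _root_.zpow_mul, mul_comm]
  rw [h2, hpw ν hν, mul_zpow, ← _root_.zpow_mul, ← Finset.prod_zpow]
  congr 1
  refine Finset.prod_congr rfl fun b _ => ?_
  rw [← _root_.zpow_mul]

theorem mem_eigs {u : ℕ} {M : Matrix (Fin u) (Fin u) ℂ} {ν : ℂ} :
    ν ∈ eigs M ↔ M.charpoly.IsRoot ν := by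
  unfold eigs
  rw [Multiset.mem_toFinset, Polynomial.mem_roots (Matrix.charpoly_monic M).ne_zero]

theorem eig_mem {u : ℕ} {M : Matrix (Fin u) (Fin u) ℂ} {ν : ℂ}
    (h : Module.End.HasEigenvalue (Matrix.toLin' M) ν) : ν ∈ eigs M := by
  rw [mem_eigs, ← Matrix.charpoly_toLin']
  exact (Module.End.hasEigenvalue_iff_isRoot_charpoly _ _).1 h

theorem eigs_ne {Γ : Type} [Group Γ] {u : ℕ} (ρU : Γ →* Matrix (Fin u) (Fin u) ℂ) (φ : Γ) :
    ∀ z ∈ eigs (ρU φ), z ≠ 0 := by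
  rintro z hz rfl
  rw [mem_eigs, Polynomial.IsRoot.def, Matrix.eval_charpoly, map_zero, zero_sub, Matrix.det_neg] at hz
  have h1 : IsUnit (ρU φ).det := by
    refine (Matrix.isUnit_iff_isUnit_det _).1 ?_
    exact ⟨⟨ρU φ, ρU φ⁻¹, by rw [← map_mul, mul_inv_cancel, map_one],
      by rw [← map_mul, inv_mul_cancel, map_one]⟩, rfl⟩
  rcases mul_eq_zero.1 hz with h | h
  · exact pow_ne_zero _ (neg_ne_zero.2 one_ne_zero) h
  · exact h1.ne_zero h

theorem spec_eq {J J' : Type} (Q : ℕ) (A : J → Finset ℂ) (A' : J' → Finset ℂ) :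
    spec Q A A' = Pool.Agent.L5helper29.OF.spec Q A A' := by
  funext i
  rcases i with ⟨j, b⟩ | i
  · cases b <;> rfl
  · rfl

theorem star_eq {J J' : Type} : (star : Idx J J' → Idx J J') = Pool.Agent.L5helper29.OF.star := by
  funext i
  rcases i with ⟨j, b⟩ | i <;> rfl

section

variable {Γ : Type} [Group Γ] {w : ℕ} {ρ : Γ →* Matrix (Fin w) (Fin w) ℂ} {χ : Γ →* ℂˣ}
    {E : Matrix (Fin w) (Fin w) ℂ} {J J' : Type} [Fintype J] [DecidableEq J] [Fintype J']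
    [DecidableEq J'] {V : Idx J J' → Matrix (Fin w) (Fin w) ℂ} {φ : Γ} {Q : ℕ} {A : J → Finset ℂ}
    {A' : J' → Finset ℂ}

theorem h0_of (hE : Eigen V (ρ φ) (spec Q A A')) : ∀ i, ∀ x ∈ spec Q A A' i, x ≠ 0 := by
  rintro i x hx rfl
  obtain ⟨y, hy, -, hy2⟩ := hE i 0 hx
  rw [zero_smul] at hy2
  apply hy
  have h1 := congrArg (ρ φ⁻¹).mulVec hy2
  rwa [Matrix.mulVec_mulVec, ← map_mul, inv_mul_cancel, map_one, Matrix.one_mulVec,
    Matrix.mulVec_zero] at h1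

theorem hdual_of (hQC : (Q : ℂ) ≠ 0) (hd : ∀ i, ∀ x ∈ A' i, (Q : ℂ) / x ∈ A' i) :
    ∀ i, ∀ x ∈ spec Q A A' i, (Q : ℂ) / x ∈ spec Q A A' (star i) := by
  rintro (⟨j, b⟩ | i) x hx
  · cases b
    · obtain ⟨y, hy, rfl⟩ := Finset.mem_image.1 hx
      change (Q : ℂ) / ((Q : ℂ) / y) ∈ A j
      rwa [div_div_cancel₀ hQC]
    · exact Finset.mem_image_of_mem _ hx
  · exact hd i x hx

/-- The operators of trace zero kill the relative Tate forms. -/
theorem killed_of (hEX : St_EXTR) (hIR : St_IRRED) (hGE : St_GEN) (hTO : St_TORUS)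
    {u d : ℕ} {ρU : Γ →* Matrix (Fin u) (Fin u) ℂ} (hS : Symp ρ χ E) (hC : Coeff ρ E star V)
    (hI : Irr ρ V) (hQ : 1 < Q)
    (hχ : (χ φ : ℂ) = Q) (hr : ∀ i, (V i).rank = (spec Q A A' i).card)
    (hE : Eigen V (ρ φ) (spec Q A A')) (hd : ∀ i, ∀ x ∈ A' i, (Q : ℂ) / x ∈ A' i)
    (hrel : RelM Q A A' (eigs (ρU φ))) {κ : Type} [Fintype κ] [DecidableEq κ]
    {T : (κ → Fin w) → Fin u → ℂ} (hT : IsTateRel ρ χ ρU d T) :
    Pool.Agent.L5helper19.OF.Killed E V T := by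
  have hQC : (Q : ℂ) ≠ 0 := by exact_mod_cast (by omega : Q ≠ 0)
  have h0 := h0_of hE
  have hdual := hdual_of hQC hd (A := A)
  obtain ⟨b, hb, hbe⟩ := Pool.Agent.L5helper29.OF.exists_eigBasis hS hC hQC hχ
    (fun i => ⟨hr i, hE i⟩) h0 hdual
  obtain ⟨c, hc, Δ, hΔ, ht⟩ := id hT
  refine Pool.Agent.L5helper29.OF.killed hEX hIR hGE hS hC hI hb hΔ ht ?_
  have h0A : ∀ j, ∀ x ∈ A j, x ≠ 0 := fun j x hx => h0 (Sum.inl (j, true)) x hx
  have h0A' : ∀ i, ∀ x ∈ A' i, x ≠ 0 := fun i x hx => h0 (Sum.inr i) x hx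
  have h1 := hTO Γ w u ρ χ E J J' V ρU hS hC φ Q hQ hχ A A' (eigs (ρU φ)) hrel
    (eigs_ne ρU φ) h0A h0A' hd (fun ν h => eig_mem h)
  have h2 : ∀ (sp : Idx J J' → Finset ℂ), sp = spec Q A A' →
      ∀ (b : Basis (Σ i, {x // x ∈ sp i}) ℂ (Fin w → ℂ)),
      Pool.Agent.L5helper29.OF.EigBasis (om E) (PP V) star sp (Q : ℂ) b →
      (∀ a, (ρ φ).mulVec (b a) = (a.2 : ℂ) • b a) →
      ∀ X, Pool.Agent.L5helper29.OF.Cart (om E) (PP V) b X →
        Pool.Agent.L5helper29.OF.Kills T X := by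
    intro sp hsp b hb hbe X hX
    rw [spec_eq] at hsp
    subst hsp
    exact h1 b hb hbe κ T c Δ hΔ ht X hX
  exact fun X hX => h2 _ rfl b hb hbe X hX

/-- The bilinear Tate forms. -/
theorem bil_of (hEX : St_EXTR) (hIR : St_IRRED) (hGE : St_GEN) (hTO : St_TORUS) (hBI : St_BIL)
    (hS : Symp ρ χ E) (hC : Coeff ρ E star V) (hI : Irr ρ V) (hQ : 1 < Q)
    (hχ : (χ φ : ℂ) = Q) (hr : ∀ i, (V i).rank = (spec Q A A' i).card)
    (hE : Eigen V (ρ φ) (spec Q A A')) (hd : ∀ i, ∀ x ∈ A' i, (Q : ℂ) / x ∈ A' i)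
    (h3 : ∀ j, 3 ≤ (A j).card) {B : Finset ℂ} (hB : ∀ z ∈ B, z ≠ 0) (hrel : RelM Q A A' B)
    {𝒜 : ∀ κ : Type, Submodule ℂ ((κ → Fin w) → ℂ)} (h𝒜 : Classes E V 𝒜)
    {t : (Fin 2 → Fin w) → ℂ} (ht : IsTate ρ χ t) : t ∈ 𝒜 (Fin 2) := by
  classical
  have hQC : (Q : ℂ) ≠ 0 := by exact_mod_cast (by omega : Q ≠ 0)
  have h0 := h0_of hE
  have hdual := hdual_of hQC hd (A := A)
  obtain ⟨b, hb, hbe⟩ := Pool.Agent.L5helper29.OF.exists_eigBasis hS hC hQC hχ
    (fun i => ⟨hr i, hE i⟩) h0 hdual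
  let ρ1 : Γ →* Matrix (Fin 1) (Fin 1) ℂ := 1
  have hT : IsTateRel ρ χ ρ1 0 (fun J (_ : Fin 1) => t J) := by
    obtain ⟨r, hr, Δ, hΔ, h⟩ := ht
    refine ⟨r, by omega, Δ, hΔ, fun γ hγ J => ?_⟩
    funext z
    have h1 : ρ1 γ = 1 := rfl
    rw [h1, Matrix.one_mulVec, Finset.sum_apply, Pi.smul_apply]
    simpa only [Pi.smul_apply, smul_eq_mul] using h γ hγ J
  have hrel1 : RelM Q A A' (eigs (ρ1 φ)) := by
    refine relM_inGrp hQC hB hrel fun ν hν => ⟨1, 0, 0, one_pos, ?_⟩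
    have h1 : ν = 1 := by
      rw [mem_eigs, Polynomial.IsRoot.def, Matrix.eval_charpoly] at hν
      have h2 : ρ1 φ = 1 := rfl
      rw [h2, Matrix.det_fin_one] at hν
      simp at hν
      exact sub_eq_zero.1 hν
    simp [h1]
  have hk := killed_of hEX hIR hGE hTO (ρU := ρ1) hS hC hI hQ hχ hr hE hd hrel1 hT
  let M : Matrix (Fin w) (Fin w) ℂ := fun x y => t ![x, y]
  have hM : ∀ v : Fin 2 → Fin w → ℂ, Pool.Agent.L5helper73.TC.mm t v = om M (v 0) (v 1) := by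
    intro v
    rw [Pool.Agent.L5helper73.TC.mm_apply, Pool.Agent.L5helper73.TC.om_apply]
    unfold dotProduct Matrix.mulVec dotProduct
    simp only [Finset.mul_sum]
    rw [← Finset.sum_product', Finset.univ_product_univ]
    refine Fintype.sum_equiv (finTwoArrowEquiv (Fin w)) _ _ fun J => ?_
    have hJ : J = ![J 0, J 1] := by
      funext x
      fin_cases x <;> rfl
    rw [Fin.prod_univ_two]
    change _ = v 0 (J 0) * (t ![J 0, J 1] * v 1 (J 1))
    rw [← hJ]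
    ring
  have hinv : ∀ X, Pool.Agent.L5helper73.CC.Good (om E) (PP V) X →
      (∀ i, Pool.Agent.L5helper73.CC.tr (PP V) X i = 0) → ∀ x y, om M (X x) y + om M x (X y) = 0 := by
    intro X hX hX' x y
    have h1 := hk (LinearMap.proj 0) X hX hX' ![x, y]
    unfold Pool.Agent.L5helper73.CC.act at h1
    rw [Fin.sum_univ_two] at h1
    change Pool.Agent.L5helper73.TC.mm t _ + Pool.Agent.L5helper73.TC.mm t _ = 0 at h1
    rw [hM, hM] at h1
    simpa using h1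
  obtain ⟨c, hc⟩ := hBI ℂ (Fin w → ℂ) (Idx J J') (om E) (PP V) star
    (Pool.Agent.L5helper73.TC.dat hS hC) (spec Q A A') (Q : ℂ) b hb (by
      rintro (⟨j, b⟩ | i) hi
      · left
        cases b
        · change 3 ≤ ((A j).image fun x => (Q : ℂ) / x).card
          rw [Finset.card_image_of_injOn]
          · exact h3 j
          · intro x hx y hy hxy
            have hx0 : x ≠ 0 := h0 (Sum.inl (j, true)) x hx
            have hy0 : y ≠ 0 := h0 (Sum.inl (j, true)) y hy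
            simp only at hxy
            rw [div_eq_div_iff hx0 hy0] at hxy
            exact (mul_left_cancel₀ hQC hxy).symm
        · exact h3 j
      · exact absurd rfl hi) (om M) hinv
  have ht2 : t = ∑ i, c (star i) • fun j : Fin 2 → Fin w => (E * V i) (j 0) (j 1) := by
    funext j
    have h1 := hc (Pi.single (j 0) 1) (Pi.single (j 1) 1)
    have h2 : ∀ N : Matrix (Fin w) (Fin w) ℂ, om N (Pi.single (j 0) 1) (Pi.single (j 1) 1) =
        N (j 0) (j 1) := by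
      intro N
      rw [Pool.Agent.L5helper73.TC.om_apply]
      simp
    rw [h2] at h1
    have hJ : j = ![j 0, j 1] := by
      funext x
      fin_cases x <;> rfl
    have h4 : t j = M (j 0) (j 1) := by
      change t j = t ![j 0, j 1]
      rw [← hJ]
    rw [h4, h1, Finset.sum_apply]
    have hinv' : ∀ i : Idx J J', star (star i) = i := hC.inv
    rw [← (Equiv.mk star star hinv' hinv' : Idx J J' ≃ Idx J J').sum_comp]
    refine Finset.sum_congr rfl fun i _ => ?_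
    change c (star i) * om E (PP V (star i) _) _ = c (star i) * (E * V i) (j 0) (j 1)
    congr 1
    rw [← h2 (E * V i)]
    have h5 := hC.adj (star i)
    rw [hinv' i] at h5
    rw [← h5]
    rw [Pool.Agent.L5helper73.TC.om_apply, Pool.Agent.L5helper73.TC.om_apply]
    unfold PP
    rw [Matrix.toLin'_apply, ← Matrix.mulVec_mulVec, Matrix.dotProduct_mulVec _ (V (star i))ᵀ,
      Matrix.vecMul_transpose]
  rw [ht2]
  exact Submodule.sum_mem _ fun i _ => Submodule.smul_mem _ _ (h𝒜.polarization i)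

/-- **The theorem for one Frobenius element.** -/
theorem one (hEX : St_EXTR) (hIR : St_IRRED) (hGE : St_GEN) (hTO : St_TORUS) (hBI : St_BIL)
    (hS : Symp ρ χ E) (hC : Coeff ρ E star V)
    (hI : Irr ρ V) (hQ : 1 < Q)
    (hχ : (χ φ : ℂ) = Q) (hr : ∀ i, (V i).rank = (spec Q A A' i).card)
    (hE : Eigen V (ρ φ) (spec Q A A')) (hd : ∀ i, ∀ x ∈ A' i, (Q : ℂ) / x ∈ A' i)
    (h3 : ∀ j, 3 ≤ (A j).card) {B : Finset ℂ} (hB : ∀ z ∈ B, z ≠ 0) (hrel : RelM Q A A' B) :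
    GeneratedFor ρ χ E V φ Q B := by
  have hQC : (Q : ℂ) ≠ 0 := by exact_mod_cast (by omega : Q ≠ 0)
  intro u d ρU hU 𝒜 ℬ h𝒜 hℬ hdet κ _ _ T hT
  have hk := killed_of hEX hIR hGE hTO hS hC hI hQ hχ hr hE hd (relM_inGrp hQC hB hrel hU) hT
  refine Pool.Agent.L5helper29.OF.relMainK2 (U := Empty) (h := fun u => u.elim) hS hC
    ⟨h𝒜.perm, h𝒜.one, h𝒜.mul,
      fun t ht => bil_of hEX hIR hGE hTO hBI hS hC hI hQ hχ hr hE hd h3 hB hrel h𝒜 ht⟩ hℬ
    ⟨fun u => u.elim, fun u => u.elim, fun u => u.elim, fun u => u.elim⟩ ?_ hT hk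
  intro k C v _ hC2 hcase K hK
  exact hdet k C v K hC2 (fun h => (hcase h).1) hK

end

end Pool.Agent.L5helper29.OFS
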