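import Pool.Agent.L5helper19.TC.RelDefs
import Pool.Agent.L5helper29.AAS.Stm

/-!
# Tate classes from one Frobenius element: the definitions of the statement

`ρ : Γ → GL_w(ℂ)` is the representation of a Galois group on the (ℓ-adic) dual `W` of `H^1(A)`, `A` an
abelian variety with a polarization form `E`, the coefficients extended to `ℂ`.  More generally `W` can
be the dual of any sum `⊕ W_i((w_i - 1) / 2)` of Tate twists, where the `W_i` are parts of odd weight
`w_i` of the cohomology of arbitrary varieties (for instance the transcendental part of the middle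
cohomology): no hypothesis of the theorems asks for an abelian variety.  `ρU` is the representation
on `H^d(Z)`, `Z` an arbitrary variety.
-/

set_option autoImplicit false
set_option linter.all false

namespace Pool.Agent.L5helper29.OFS

open Matrix Polynomial NumberField Finset
open Pool.Agent.L5helper73.TC (Symp Coeff detForm)
open Pool.Agent.L5helper19.TC (IsTateRel RelSystem OnlyTateLines)
open Pool.Agent.L5helper29.AA (share)
open Pool.Agent.L5helper29.AAS (proportion weil rts rtsZ InGrp)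

/-! ## The pieces -/

/-- The index set of the pieces: `V (inl (j, true))` and its dual `V (inl (j, false))`, of unitary
type, and `V (inr i)`, of symplectic type. -/
abbrev Idx (J J' : Type) : Type := (J × Bool) ⊕ J'

/-- the index of the dual piece -/
def star {J J' : Type} : Idx J J' → Idx J J'
  | Sum.inl (j, b) => Sum.inl (j, !b)
  | Sum.inr i => Sum.inr i

/-- The pieces `V i` (the images of the projectors) are irreducible for all subgroups of finite
index. -/
def Irr {Γ : Type} [Group Γ] {w : ℕ} {I : Type} (ρ : Γ →* Matrix (Fin w) (Fin w) ℂ)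
    (V : I → Matrix (Fin w) (Fin w) ℂ) : Prop :=
  ∀ i, ∀ Δ : Subgroup Γ, Δ.FiniteIndex → ∀ W : Submodule ℂ (Fin w → ℂ),
    (∀ x ∈ W, (V i).mulVec x = x) → (∀ γ ∈ Δ, ∀ x ∈ W, (ρ γ).mulVec x ∈ W) →
      W = ⊥ ∨ ∀ x, (V i).mulVec x = x → x ∈ W

/-- The eigenvalues on the pieces: `A j`, the `Q / α`, `α ∈ A j`, and `A' i`. -/
noncomputable def spec {J J' : Type} (Q : ℕ) (A : J → Finset ℂ) (A' : J' → Finset ℂ) :
    Idx J J' → Finset ℂ
  | Sum.inl (j, true) => A j
  | Sum.inl (j, false) => (A j).image fun x => (Q : ℂ) / x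
  | Sum.inr i => A' i

/-- The numbers in `A i` are eigenvalues of `M` on `V i`. -/
def Eigen {w : ℕ} {I : Type} (V : I → Matrix (Fin w) (Fin w) ℂ) (M : Matrix (Fin w) (Fin w) ℂ)
    (A : I → Finset ℂ) : Prop :=
  ∀ i, ∀ α ∈ A i, ∃ x : Fin w → ℂ, x ≠ 0 ∧ (V i).mulVec x = x ∧ M.mulVec x = α • x

/-- the eigenvalues of a matrix -/
noncomputable def eigs {u : ℕ} (M : Matrix (Fin u) (Fin u) ℂ) : Finset ℂ :=
  M.charpoly.roots.toFinset

/-- All multiplicative relations, up to powers, between the elements of the sets `A j` and `A' i`,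
modulo the group generated by `Q` and `B`, are the obvious ones: the exponents are constant on the
sets `A j`, and equal at `x` and `Q / x` on the sets `A' i`. -/
def OnlyObvious (Q : ℕ) {J J' : Type} [Fintype J] [Fintype J'] (A : J → Finset ℂ)
    (A' : J' → Finset ℂ) (B : Finset ℂ) : Prop :=
  ∀ (m : J → ℂ → ℤ) (m' : J' → ℂ → ℤ) (n : ℂ → ℤ) (k : ℤ) (N : ℕ), 0 < N →
    ((∏ j, ∏ x ∈ A j, x ^ m j x) * ∏ i, ∏ x ∈ A' i, x ^ m' i x) ^ N =
      (Q : ℂ) ^ k * ∏ b ∈ B, b ^ n b →
    (∀ j, ∀ x ∈ A j, ∀ y ∈ A j, m j x = m j y) ∧ ∀ i, ∀ x ∈ A' i, m' i x = m' i (Q / x)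

/-! ## The conclusion -/

/-- A system of forms on `W` (for instance the spans of the motivated, or of the algebraic, classes),
closed under permutations of the variables and products, containing the constants and the
polarization form on each piece, `E (x, V i y)`.  (Nothing is assumed on other bilinear Tate
forms.) -/
structure Classes {w : ℕ} (E : Matrix (Fin w) (Fin w) ℂ) {I : Type}
    (V : I → Matrix (Fin w) (Fin w) ℂ) (𝒜 : ∀ κ : Type, Submodule ℂ ((κ → Fin w) → ℂ)) :
    Prop where
  perm : ∀ (κ l : Type) [Fintype κ] [Fintype l] (e : κ ≃ l) (t : (κ → Fin w) → ℂ),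
    t ∈ 𝒜 κ → (fun J => t fun k => J (e k)) ∈ 𝒜 l
  one : (fun _ => 1) ∈ 𝒜 (Fin 0)
  mul : ∀ (κ l : Type) [Fintype κ] [Fintype l] (t : (κ → Fin w) → ℂ)
    (u : (l → Fin w) → ℂ), t ∈ 𝒜 κ → u ∈ 𝒜 l →
    (fun J : κ ⊕ l → Fin w => (t fun k => J (Sum.inl k)) * u fun k => J (Sum.inr k)) ∈ 𝒜 (κ ⊕ l)
  polarization : ∀ i, (fun J : Fin 2 → Fin w => (E * V i) (J 0) (J 1)) ∈ 𝒜 (Fin 2)

/-- All Tate forms in `H^1(A) ⊗ ... ⊗ H^1(A) ⊗ H^d(Z)`, any number of factors, are obtained by
products, permutations of the variables and linear combinations from the polarization form on the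
pieces and the Tate forms `det V_(C 1) ⊗ ... ⊗ det V_(C k) ⊗ v`, `v` in `H^d(Z)`, where the `V_(C q)` are
pieces of unitary type, no two of them dual to each other.  If the only lines in `H^d(Z)` that
are stable under subgroups of finite index are spanned by Tate classes, then only those with a Tate
class `v` are used.  If all pieces are of symplectic type, then `k = 0`: everything is generated by
the polarization and the Tate classes `v` of `Z`. -/
def Generated {Γ : Type} [Group Γ] {w u : ℕ} {J J' : Type} (ρ : Γ →* Matrix (Fin w) (Fin w) ℂ)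
    (χ : Γ →* ℂˣ) (E : Matrix (Fin w) (Fin w) ℂ) (V : Idx J J' → Matrix (Fin w) (Fin w) ℂ)
    (ρU : Γ →* Matrix (Fin u) (Fin u) ℂ) (d : ℕ) : Prop :=
  ∀ (𝒜 : ∀ κ : Type, Submodule ℂ ((κ → Fin w) → ℂ))
    (ℬ : ∀ κ : Type, Submodule ℂ ((κ → Fin w) → Fin u → ℂ)), Classes E V 𝒜 →
    RelSystem 𝒜 ℬ →
    (∀ (k : ℕ) (C : Fin k → Idx J J') (v : Fin u → ℂ) (K : ∀ q, Fin (V (C q)).rank → Fin w),
      (∀ q q', C q ≠ star (C q')) →
      (OnlyTateLines χ ρU d → IsTateRel ρ χ ρU d (fun _ : Fin 0 → Fin w => v)) →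
      IsTateRel ρ χ ρU d (fun J => detForm V C K J • v) →
        (fun J => detForm V C K J • v) ∈ ℬ (Σ q, Fin (V (C q)).rank)) →
    ∀ (κ : Type) [Fintype κ] [DecidableEq κ] (T : (κ → Fin w) → Fin u → ℂ),
      IsTateRel ρ χ ρU d T → T ∈ ℬ κ

/-- This holds for ALL representations `ρU` (of any dimension, all degrees `d`) for which the
eigenvalues of the Frobenius element `φ` are, up to powers, in the group generated by `Q` and `B`
(`InGrp`): if `B` contains the eigenvalues of the Frobenius on the cohomology of `Z₀`, then for all powers of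
`Z₀`, and for all varieties `Z` with good reduction at this place whose Frobenius eigenvalues are
products of them. -/
def GeneratedFor {Γ : Type} [Group Γ] {w : ℕ} {J J' : Type} (ρ : Γ →* Matrix (Fin w) (Fin w) ℂ)
    (χ : Γ →* ℂˣ) (E : Matrix (Fin w) (Fin w) ℂ) (V : Idx J J' → Matrix (Fin w) (Fin w) ℂ)
    (φ : Γ) (Q : ℕ) (B : Finset ℂ) : Prop :=
  ∀ (u d : ℕ) (ρU : Γ →* Matrix (Fin u) (Fin u) ℂ), (∀ ν ∈ eigs (ρU φ), InGrp Q B ν) →
    Generated ρ χ E V ρU d

/-! ## Families over number fields -/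

/-- Equidistribution: for two large primes `r ≠ r'` and homomorphisms `φ`, `φ'` of the ring of
integers of `K` to the fields with `r` and `r'` elements, the reductions of the tuples `(P j)`,
`(h i)` are distributed, for `n → ∞`, like the characteristic polynomials of independent random
matrices of size `N j` with determinant `δ j`, and like those (`weil`) of independent random symplectic
similitudes of size `2 g i` with multiplier `Q n`.  (Deligne, Katz: if the geometric monodromy
mod `r` and mod `r'` is the product of the groups `SL` and `Sp`, and the determinants on the pieces of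
unitary type are constant in the family, for instance after a twist.) -/
def Equi {K : Type} [Field K] [NumberField K] (Q : ℕ → ℕ) {J J' : Type} [Fintype J] [Fintype J']
    (N : J → ℕ) (g : J' → ℕ) (S : ℕ → Type) [∀ n, Fintype (S n)] (P : ∀ n, S n → J → (𝓞 K)[X])
    (h : ∀ n, S n → J' → ℤ[X]) (δ : ℕ → J → 𝓞 K) : Prop :=
  ∃ r₀ : ℕ, ∀ (r r' : ℕ) (φ : 𝓞 K →+* ZMod r) (φ' : 𝓞 K →+* ZMod r'), r.Prime → r'.Prime →
    r₀ ≤ r → r₀ ≤ r' → r ≠ r' → ∀ ε : ℝ, 0 < ε → ∃ n₀ : ℕ, ∀ n ≥ n₀, Nonempty (S n) →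
      ∀ (E : J → Set (ZMod r)[X]) (E' : J → Set (ZMod r')[X]) (D : J' → Set (ZMod r)[X])
        (D' : J' → Set (ZMod r')[X]),
        |({s : S n | (∀ j, (P n s j).map φ ∈ E j ∧ (P n s j).map φ' ∈ E' j) ∧
            ∀ i, (h n s i).map (Int.castRingHom (ZMod r)) ∈ D i ∧
              (h n s i).map (Int.castRingHom (ZMod r')) ∈ D' i}.ncard : ℝ) /
            (Nat.card (S n) : ℝ) -
          (∏ j, share (N j) r (φ (δ n j)) (E j) * share (N j) r' (φ' (δ n j)) (E' j)) *
            ∏ i, proportion (g i) r (Q n) (D i) * proportion (g i) r' (Q n) (D' i)| ≤ ε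

/-- A family with large monodromy: `S n` are the members over the residue field, with `Q n` elements,
of the place number `n`, and `P n t j`, `weil (Q n) (h n t i)` the characteristic polynomials of the
Frobenius on the pieces of unitary type and of symplectic type of the member `t ∈ S n`. -/
structure BigFamily {K : Type} [Field K] [NumberField K] (τ : K →+* ℂ) (Q : ℕ → ℕ) {J J' : Type}
    [Fintype J] [Fintype J'] (N : J → ℕ) (g : J' → ℕ) (S : ℕ → Type) [∀ n, Fintype (S n)]
    (P : ∀ n, S n → J → (𝓞 K)[X]) (h : ∀ n, S n → J' → ℤ[X]) (δ : ℕ → J → 𝓞 K) : Prop where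
  one_lt : ∀ n, 1 < Q n
  coprime : ∀ r : ℕ, r.Prime → ∃ n₀ : ℕ, ∀ n ≥ n₀, ¬ r ∣ Q n
  three_le : ∀ j, 3 ≤ N j
  pos : ∀ i, 0 < g i
  monic : ∀ n t j, (P n t j).Monic
  natDegree : ∀ n t j, (P n t j).natDegree = N j
  monic' : ∀ n t i, (h n t i).Monic
  natDegree' : ∀ n t i, (h n t i).natDegree = g i
  norm : ∀ n t j, ∀ x ∈ rts τ (P n t j), ‖x‖ = Real.sqrt (Q n : ℝ)
  norm' : ∀ n t i, ∀ x ∈ rtsZ (weil (Q n) (h n t i)), ‖x‖ = Real.sqrt (Q n : ℝ)
  dvd : ∀ n j, ∃ k : ℕ, δ n j ∣ (Q n : 𝓞 K) ^ k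
  equi : Equi Q N g S P h δ

/-- Members of the family over the number field with Galois group `Γ` (those without additional
endomorphisms: then the pieces are irreducible, by Faltings): `ρ s` is the representation attached to
the member `s`, with the polarization form `E s` and the pieces `V s i`; `φ n` is a Frobenius element
for the place number `n`; if `s` has the reduction `t ∈ S n`, then the roots of the polynomials of
`t` are eigenvalues of `φ n`. -/
structure Members {Γ : Type} [Group Γ] (χ : Γ →* ℂˣ) (φ : ℕ → Γ) {K : Type} [Field K]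
    [NumberField K] (τ : K →+* ℂ) (Q : ℕ → ℕ) {J J' : Type} [Fintype J] [DecidableEq J] [Fintype J']
    [DecidableEq J'] (N : J → ℕ) (g : J' → ℕ) (S : ℕ → Type) (P : ∀ n, S n → J → (𝓞 K)[X])
    (h : ∀ n, S n → J' → ℤ[X]) {𝒮 : Type} (red : ∀ n, 𝒮 → S n → Prop) {w : ℕ}
    (ρ : 𝒮 → Γ →* Matrix (Fin w) (Fin w) ℂ) (E : 𝒮 → Matrix (Fin w) (Fin w) ℂ)
    (V : 𝒮 → Idx J J' → Matrix (Fin w) (Fin w) ℂ) : Prop where
  frob : ∀ n, (χ (φ n) : ℂ) = Q n
  symp : ∀ s, Symp (ρ s) χ (E s)
  coeff : ∀ s, Coeff (ρ s) (E s) star (V s)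
  irr : ∀ s, Irr (ρ s) (V s)
  rank : ∀ s j b, (V s (Sum.inl (j, b))).rank = N j
  rank' : ∀ s i, (V s (Sum.inr i)).rank = 2 * g i
  eigen : ∀ n s t, red n s t → Eigen (V s) (ρ s (φ n))
    (spec (Q n) (fun j => rts τ (P n t j)) fun i => rtsZ (weil (Q n) (h n t i)))

/-- The reductions of the members in the finite sets `F H` (those of height at most `H`) are
equidistributed: for large `n` and `H` at least the share `#D / #(S n) - ε` of the elements of `F H`
has a reduction in `D ⊆ S n`.  (For the parameters in an open subset of affine space this is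
elementary: `ε` accounts for the complement of the open subset, `#(S n) / Q ^ N → 1`; the members with
additional endomorphisms are a thin set, so that it remains true without them.) -/
def Spread (S : ℕ → Type) [∀ n, Fintype (S n)] {𝒮 : Type} (red : ∀ n, 𝒮 → S n → Prop)
    (F : ℕ → Finset 𝒮) : Prop :=
  ∀ ε : ℝ, 0 < ε → ∃ n₀ : ℕ, ∀ n ≥ n₀, Nonempty (S n) ∧ ∃ H₀ : ℕ, ∀ H ≥ H₀, ∀ D : Set (S n),
    ((D.ncard : ℝ) / (Nat.card (S n) : ℝ) - ε) * (F H).card ≤
      ({s | s ∈ F H ∧ ∃ t ∈ D, red n s t}.ncard : ℝ)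

end Pool.Agent.L5helper29.OFS
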